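import Mathlib

set_option autoImplicit false

open MeasureTheory Set Filter Topology Metric
open scoped ComplexConjugate Real

namespace Pool.Agent.Lib.Pda2ee6

lemma circ_lt (z : ℂ) (r : ℝ) (hr : 0 < r) (h : r < ‖z‖) :
    Real.circleAverage (fun w => (z - w)⁻¹) 0 r = z⁻¹ := by
  have : DiffContOnCl ℂ (fun w : ℂ => (z - w)⁻¹) (ball 0 |r|) := by
    apply DifferentiableOn.diffContOnCl
    rw [closure_ball _ (by positivity)]
    intro w hw
    have hne : z - w ≠ 0 := by
      intro h0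
      have : z = w := sub_eq_zero.mp h0
      rw [mem_closedBall_zero_iff, ← this, abs_of_pos hr] at hw
      linarith
    exact ((differentiableAt_const z).sub differentiableAt_id).inv hne |>.differentiableWithinAt
  rw [this.circleAverage]
  simp

lemma circ_gt (z : ℂ) (r : ℝ) (hr : 0 < r) (h : ‖z‖ < r) :
    Real.circleAverage (fun w => (z - w)⁻¹) 0 r = 0 := by
  have h1 : DiffContOnCl ℂ (fun w : ℂ => w / (conj z * w - (r:ℂ) ^ 2)) (ball 0 |r|) := by
    apply DifferentiableOn.diffContOnCl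
    rw [closure_ball _ (by positivity)]
    intro w hw
    rw [mem_closedBall_zero_iff, abs_of_pos hr] at hw
    have hne : conj z * w - (r:ℂ) ^ 2 ≠ 0 := by
      intro h0
      have h2 : conj z * w = (r:ℂ) ^ 2 := sub_eq_zero.mp h0
      have h3 : ‖conj z * w‖ = r ^ 2 := by
        rw [h2, norm_pow, Complex.norm_real, Real.norm_eq_abs, abs_of_pos hr]
      rw [norm_mul, RCLike.norm_conj] at h3
      nlinarith [norm_nonneg z, norm_nonneg w]
    have hd : DifferentiableAt ℂ (fun w : ℂ => w / (conj z * w - (r:ℂ) ^ 2)) w := by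
      apply DifferentiableAt.div
      · fun_prop
      · fun_prop
      · exact hne
    exact hd.differentiableWithinAt
  have h2 : Real.circleAverage (fun w : ℂ => w / (conj z * w - (r:ℂ) ^ 2)) 0 r = 0 := by
    rw [h1.circleAverage]; simp
  have h3 : Real.circleAverage (fun w => (z - w)⁻¹) 0 r =
      conj (Real.circleAverage (fun w : ℂ => w / (conj z * w - (r:ℂ) ^ 2)) 0 r) := by
    rw [Real.circleAverage_def, Real.circleAverage_def]
    rw [Complex.real_smul, Complex.real_smul, map_mul, Complex.conj_ofReal]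
    congr 1
    rw [intervalIntegral.integral_of_le (by positivity), intervalIntegral.integral_of_le (by positivity),
      ← integral_conj]
    congr 1
    funext θ
    set w := circleMap 0 r θ with hw
    have hwn : ‖w‖ = r := by rw [hw, norm_circleMap_zero, abs_of_pos hr]
    have hw0 : w ≠ 0 := by
      intro h0
      rw [h0, norm_zero] at hwn
      linarith
    have hcw0 : conj w ≠ 0 := by simpa using hw0
    have hzw : z - w ≠ 0 := by
      intro h0
      have : z = w := sub_eq_zero.mp h0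
      rw [this] at h
      linarith
    have e : (r:ℂ) ^ 2 = w * conj w := by
      rw [Complex.mul_conj, Complex.normSq_eq_norm_sq, hwn]
      push_cast
      rfl
    rw [map_div₀, map_sub, map_mul, map_pow, Complex.conj_conj, Complex.conj_ofReal, e]
    have : z * conj w - w * conj w = (z - w) * conj w := by ring
    rw [this]
    field_simp
  rw [h3, h2, map_zero]

lemma inner_integral (z : ℂ) (r : ℝ) (hr : 0 < r) (h : r ≠ ‖z‖) :
    ∫ θ in Ioo (-π) π, (z - (r * (Real.cos θ + Real.sin θ * Complex.I) : ℂ))⁻¹ =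
      if r < ‖z‖ then 2 * π * z⁻¹ else 0 := by
  have h1 : ∀ θ : ℝ, (r * (Real.cos θ + Real.sin θ * Complex.I) : ℂ) = circleMap 0 r θ := by
    intro θ
    rw [circleMap_zero, Complex.exp_mul_I]
    push_cast
    ring
  simp_rw [h1]
  rw [← integral_Ioc_eq_integral_Ioo, ← intervalIntegral.integral_of_le (by linarith [Real.pi_pos])]
  have hper : Function.Periodic (fun θ : ℝ => (z - circleMap 0 r θ)⁻¹) (2 * π) := by
    intro θ
    simp only [periodic_circleMap 0 r θ]
  have h2 := hper.intervalIntegral_add_eq (-π) 0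
  have e1 : -π + 2 * π = π := by ring
  rw [e1, zero_add] at h2
  rw [h2]
  have h3 : ∫ θ in (0:ℝ)..(2 * π), (z - circleMap 0 r θ)⁻¹ = (2 * π) * Real.circleAverage (fun w => (z - w)⁻¹) 0 r := by
    rw [Real.circleAverage_def, Complex.real_smul]
    push_cast
    have : (π : ℂ) ≠ 0 := by exact_mod_cast Real.pi_ne_zero
    field_simp
  rw [h3]
  split_ifs with hlt
  · rw [circ_lt z r hr hlt]
  · rw [circ_gt z r hr (lt_of_le_of_ne (not_lt.mp hlt) (Ne.symm h)), mul_zero]

lemma locInt_inv (z : ℂ) (R : ℝ) : IntegrableOn (fun w : ℂ => (z - w)⁻¹) (ball 0 R) := by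
  have h1 : LocallyIntegrable (fun w : ℂ => w⁻¹) := by
    refine locallyIntegrable_of_norm_le_rpow (C := 1) (α := 1) ?_ ?_ ?_ ?_
    · rw [Complex.finrank_real_complex]; norm_num
    · rw [Complex.finrank_real_complex]; norm_num
    · refine Eventually.of_forall fun w => ?_
      rw [norm_inv, Real.rpow_neg_one, one_mul]
    · exact (measurable_inv).aestronglyMeasurable
  have h2 : IntegrableOn (fun w : ℂ => w⁻¹) (ball z R) :=
    (h1.integrableOn_isCompact (isCompact_closedBall z R)).mono_set ball_subset_closedBall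
  have h3 := (Measure.measurePreserving_sub_left (volume : Measure ℂ) z).integrableOn_comp_preimage
    (Homeomorph.subLeft z).measurableEmbedding (f := fun w : ℂ => w⁻¹) (s := ball z R)
  have h4 : (fun x : ℂ => z - x) ⁻¹' (ball z R) = ball 0 R := by
    ext w
    simp [dist_eq_norm]
  rw [h4] at h3
  exact h3.mpr h2

/-- The area integral of the Cauchy kernel over a disc. -/
lemma area_cauchy (z : ℂ) (R : ℝ) (hz : ‖z‖ < R) :
    ∫ w in ball (0:ℂ) R, (z - w)⁻¹ = π * conj z := by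
  have hR : 0 < R := lt_of_le_of_lt (norm_nonneg _) hz
  set F : ℂ → ℂ := (ball (0:ℂ) R).indicator (fun w => (z - w)⁻¹) with hF
  have hFm : Measurable F := by
    apply Measurable.indicator _ measurableSet_ball
    exact (measurable_const.sub measurable_id).inv
  have hFi : Integrable F := (integrable_indicator_iff measurableSet_ball).mpr (locInt_inv z R)
  rw [← integral_indicator measurableSet_ball, ← hF, ← Complex.integral_comp_polarCoord_symm]
  have ht : polarCoord.target = Ioi (0:ℝ) ×ˢ Ioo (-π) π := rfl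
  rw [ht, Measure.volume_eq_prod]
  have hsm : Measurable (fun p : ℝ × ℝ => Complex.polarCoord.symm p) := by
    have : (fun p : ℝ × ℝ => Complex.polarCoord.symm p) =
      fun p : ℝ × ℝ => (p.1 : ℂ) * (Real.cos p.2 + Real.sin p.2 * Complex.I) := by
      funext p; exact Complex.polarCoord_symm_apply p
    rw [this]
    fun_prop
  have hint : IntegrableOn (fun p : ℝ × ℝ => p.1 • F (Complex.polarCoord.symm p)) (Ioi (0:ℝ) ×ˢ Ioo (-π) π)
      ((volume : Measure ℝ).prod volume) := by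
    rw [← Measure.volume_eq_prod]
    refine ⟨?_, ?_⟩
    · exact (measurable_fst.smul (hFm.comp hsm)).aestronglyMeasurable
    · have h1 := Complex.lintegral_comp_polarCoord_symm (fun w => ‖F w‖ₑ)
      have h2 : ∫⁻ w, ‖F w‖ₑ < ⊤ := hFi.2
      rw [← h1, ht] at h2
      refine lt_of_le_of_lt (le_of_eq ?_) h2
      apply setLIntegral_congr_fun (measurableSet_Ioi.prod measurableSet_Ioo)
      intro p hp
      have hp1 : 0 < p.1 := hp.1
      simp only [smul_eq_mul]
      rw [enorm_smul, Real.enorm_eq_ofReal hp1.le]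
  rw [setIntegral_prod _ hint]
  have hinner : ∀ r ∈ Ioi (0:ℝ), r ≠ ‖z‖ →
      ∫ θ in Ioo (-π) π, r • F (Complex.polarCoord.symm (r, θ)) =
      (Ioo 0 ‖z‖).indicator (fun r : ℝ => (r:ℂ) * (2 * π * z⁻¹)) r := by
    intro r hr hne
    have hr0 : (0:ℝ) < r := hr
    by_cases hrR : r < R
    · have e1 : ∀ θ : ℝ, r • F (Complex.polarCoord.symm (r, θ)) =
          (r:ℂ) * (z - (r * (Real.cos θ + Real.sin θ * Complex.I) : ℂ))⁻¹ := by
        intro θ
        rw [Complex.real_smul, hF, Set.indicator_of_mem]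
        · rw [Complex.polarCoord_symm_apply]
        · rw [mem_ball_zero_iff, Complex.norm_polarCoord_symm, abs_of_pos hr0]
          exact hrR
      simp_rw [e1]
      rw [integral_const_mul, inner_integral z r hr0 hne]
      by_cases hlt : r < ‖z‖
      · rw [if_pos hlt, Set.indicator_of_mem]
        exact ⟨hr0, hlt⟩
      · rw [if_neg hlt, mul_zero, Set.indicator_of_notMem]
        intro h; exact hlt h.2
    · have e1 : ∀ θ : ℝ, r • F (Complex.polarCoord.symm (r, θ)) = 0 := by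
        intro θ
        rw [hF, Set.indicator_of_notMem, smul_zero]
        rw [mem_ball_zero_iff, Complex.norm_polarCoord_symm, abs_of_pos hr0]
        exact hrR
      simp_rw [e1]
      rw [integral_zero, Set.indicator_of_notMem]
      intro h
      exact hrR (h.2.trans hz)
  have hae : ∫ r in Ioi (0:ℝ), ∫ θ in Ioo (-π) π, r • F (Complex.polarCoord.symm (r, θ)) =
      ∫ r in Ioi (0:ℝ), (Ioo 0 ‖z‖).indicator (fun r : ℝ => (r:ℂ) * (2 * π * z⁻¹)) r := by
    apply setIntegral_congr_ae measurableSet_Ioi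
    have : ∀ᵐ r : ℝ, r ≠ ‖z‖ := by
      rw [ae_iff]
      simp
    filter_upwards [this] with r hr hr2
    exact hinner r hr2 hr
  rw [hae, integral_indicator measurableSet_Ioo, Measure.restrict_restrict measurableSet_Ioo]
  have : Ioo 0 ‖z‖ ∩ Ioi (0:ℝ) = Ioo 0 ‖z‖ := by
    ext r; simp
    intro h _; exact h
  rw [this, ← integral_Ioc_eq_integral_Ioo, ← intervalIntegral.integral_of_le (norm_nonneg z),
    intervalIntegral.integral_mul_const]
  have h2 : ∫ r in (0:ℝ)..‖z‖, (r:ℂ) = (‖z‖ ^ 2 / 2 : ℝ) := by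
    rw [intervalIntegral.integral_ofReal, integral_id]
    simp
  rw [h2]
  by_cases hz0 : z = 0
  · simp [hz0]
  · have : ((‖z‖ ^ 2 / 2 : ℝ) : ℂ) = z * conj z / 2 := by
      rw [Complex.mul_conj, Complex.normSq_eq_norm_sq]
      push_cast
      rfl
    rw [this]
    field_simp

/-- The planar integral of `‖u‖ ^ (-3/2)` over a ball. -/
noncomputable def K (R : ℝ) : ℝ := ∫ u in ball (0:ℂ) R, ‖u‖ ^ (-(3/2) : ℝ)

lemma locInt_rpow : LocallyIntegrable (fun u : ℂ => ‖u‖ ^ (-(3/2) : ℝ)) := by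
  refine locallyIntegrable_of_norm_le_rpow (C := 1) (α := 3/2) ?_ ?_ ?_ ?_
  · rw [Complex.finrank_real_complex]; norm_num
  · rw [Complex.finrank_real_complex]; norm_num
  · refine Eventually.of_forall fun w => ?_
    rw [Real.norm_eq_abs, abs_of_nonneg (by positivity), one_mul]
  · exact (measurable_norm.pow_const _).aestronglyMeasurable

lemma int_rpow (c : ℂ) (S : ℝ) : IntegrableOn (fun w : ℂ => ‖c - w‖ ^ (-(3/2) : ℝ)) (ball 0 S) := by
  have h2 : IntegrableOn (fun u : ℂ => ‖u‖ ^ (-(3/2) : ℝ)) (ball c S) :=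
    (locInt_rpow.integrableOn_isCompact (isCompact_closedBall c S)).mono_set ball_subset_closedBall
  have h3 := (Measure.measurePreserving_sub_left (volume : Measure ℂ) c).integrableOn_comp_preimage
    (Homeomorph.subLeft c).measurableEmbedding (f := fun u : ℂ => ‖u‖ ^ (-(3/2) : ℝ)) (s := ball c S)
  have h4 : (fun x : ℂ => c - x) ⁻¹' (ball c S) = ball 0 S := by
    ext w
    simp [dist_eq_norm]
  rw [h4] at h3
  exact h3.mpr h2

lemma int_rpow_le (c : ℂ) (R S : ℝ) (hc : ‖c‖ + R ≤ S) :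
    ∫ w in ball (0:ℂ) R, ‖c - w‖ ^ (-(3/2) : ℝ) ≤ K S := by
  have h3 := (Measure.measurePreserving_sub_left (volume : Measure ℂ) c).setIntegral_preimage_emb
    (Homeomorph.subLeft c).measurableEmbedding (fun u : ℂ => ‖u‖ ^ (-(3/2) : ℝ)) (ball c R)
  have h4 : (fun x : ℂ => c - x) ⁻¹' (ball c R) = ball 0 R := by
    ext w
    simp [dist_eq_norm]
  rw [h4] at h3
  rw [h3, K]
  apply setIntegral_mono_set
  · exact (locInt_rpow.integrableOn_isCompact (isCompact_closedBall 0 S)).mono_set ball_subset_closedBall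
  · refine Eventually.of_forall fun w => ?_
    simp only [Pi.zero_apply]
    positivity
  · apply HasSubset.Subset.eventuallyLE
    intro w hw
    rw [mem_ball_zero_iff]
    rw [mem_ball, dist_eq_norm] at hw
    calc ‖w‖ = ‖(w - c) + c‖ := by ring_nf
      _ ≤ ‖w - c‖ + ‖c‖ := norm_add_le _ _
      _ < S := by linarith

lemma rpow_eq (u : ℝ) (hu : 0 < u) : u ^ (-(3/2) : ℝ) = ((√u)⁻¹) ^ 3 := by
  rw [Real.sqrt_eq_rpow, ← Real.rpow_neg hu.le, ← Real.rpow_natCast, ← Real.rpow_mul hu.le]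
  norm_num

/-- the elementary pointwise inequality -/
lemma kernel_ineq (h u v : ℝ) (hh : 0 < h) (hu : 0 < u) (hv : 0 < v) (hle : h ≤ u + v) :
    h / (u * v) ≤ √h * (u ^ (-(3/2) : ℝ) + v ^ (-(3/2) : ℝ)) := by
  rw [rpow_eq u hu, rpow_eq v hv]
  obtain ⟨a, ha, rfl⟩ : ∃ a : ℝ, 0 < a ∧ u = a ^ 2 := ⟨√u, Real.sqrt_pos.mpr hu, (Real.sq_sqrt hu.le).symm⟩
  obtain ⟨b, hb, rfl⟩ : ∃ b : ℝ, 0 < b ∧ v = b ^ 2 := ⟨√v, Real.sqrt_pos.mpr hv, (Real.sq_sqrt hv.le).symm⟩
  obtain ⟨t, ht, rfl⟩ : ∃ t : ℝ, 0 < t ∧ h = t ^ 2 := ⟨√h, Real.sqrt_pos.mpr hh, (Real.sq_sqrt hh.le).symm⟩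
  rw [Real.sqrt_sq ha.le, Real.sqrt_sq hb.le, Real.sqrt_sq ht.le]
  have h1 : t ≤ a + b := by
    by_contra hcon
    push Not at hcon
    nlinarith [mul_pos ha hb]
  have h2 : t ^ 2 / (a ^ 2 * b ^ 2) = t * (t * (a⁻¹ ^ 2 * b⁻¹ ^ 2)) := by
    field_simp
  have h3 : (a + b) * (a⁻¹ ^ 2 * b⁻¹ ^ 2) = a⁻¹ * b⁻¹ ^ 2 + a⁻¹ ^ 2 * b⁻¹ := by
    field_simp
  have hα : 0 < a⁻¹ := inv_pos.mpr ha
  have hβ : 0 < b⁻¹ := inv_pos.mpr hb
  rw [h2]
  apply mul_le_mul_of_nonneg_left _ ht.le
  calc t * (a⁻¹ ^ 2 * b⁻¹ ^ 2) ≤ (a + b) * (a⁻¹ ^ 2 * b⁻¹ ^ 2) := by gcongr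
    _ = a⁻¹ * b⁻¹ ^ 2 + a⁻¹ ^ 2 * b⁻¹ := h3
    _ ≤ a⁻¹ ^ 3 + b⁻¹ ^ 3 := by
      nlinarith [mul_nonneg (sq_nonneg (a⁻¹ - b⁻¹)) (add_pos hα hβ).le]

end Pool.Agent.Lib.Pda2ee6
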