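import Mathlib

set_option autoImplicit false

open scoped ENNReal

namespace Pool.Agent.Lib.Pda2ee6

variable {A : Type*} [NonUnitalNormedCommRing A] [NormedSpace ℂ A] [IsScalarTower ℂ A A]
  [SMulCommClass ℂ A A]

/-- For an ideal `I` of a commutative complex algebra `A` (a linear subspace stable under
multiplication by `A`), the ideal `{(0, y) : y ∈ I}` of the unitization `A₊` of `A`. The quotient
of `A₊` by this ideal is the unitization of the quotient algebra `A / I`. -/
def unitIdeal (I : Submodule ℂ A) (hI : ∀ a : A, ∀ y ∈ I, a * y ∈ I) :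
    Ideal (Unitization ℂ A) where
  carrier := {z | z.fst = 0 ∧ z.snd ∈ I}
  add_mem' := fun {a b} ha hb =>
    ⟨by rw [Unitization.fst_add, ha.1, hb.1, add_zero],
      by rw [Unitization.snd_add]; exact I.add_mem ha.2 hb.2⟩
  zero_mem' := ⟨rfl, I.zero_mem⟩
  smul_mem' := fun c z hz => by
    refine ⟨?_, ?_⟩
    · rw [smul_eq_mul, Unitization.fst_mul, hz.1, mul_zero]
    · rw [smul_eq_mul, Unitization.snd_mul, hz.1, zero_smul, add_zero]
      exact I.add_mem (I.smul_mem _ hz.2) (hI _ _ hz.2)

variable (A) in
/-- A commutative Banach algebra `A` (not assumed unital) is an SR-algebra if for every proper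
closed ideal `I` of `A` and every `x : A`, the spectral radius of the coset `x + I` in `A / I` is
the infimum of the spectral radii of the elements `x + y`, `y ∈ I`. Spectral radii in the possibly
non-unital algebras `A` and `A / I` are computed, as usual, in their unitizations. -/
def IsSRAlgebra : Prop :=
  ∀ (I : Submodule ℂ A) (hI : ∀ a : A, ∀ y ∈ I, a * y ∈ I), IsClosed (I : Set A) → I ≠ ⊤ →
    ∀ x : A, spectralRadius ℂ (Ideal.Quotient.mk (unitIdeal I hI) (x : Unitization ℂ A)) =
      ⨅ y ∈ I, spectralRadius ℂ ((x + y : A) : Unitization ℂ A)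

end Pool.Agent.Lib.Pda2ee6
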