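import Mathlib
import Pool.Agent.Lib.Pda2ee6.Defs

set_option autoImplicit false

open scoped ENNReal Topology
open WeakDual Filter

namespace Pool.Agent.Lib.Pda2ee6

variable {A : Type*} [NonUnitalNormedCommRing A] [NormedSpace ℂ A] [IsScalarTower ℂ A A]
  [SMulCommClass ℂ A A]

/-- the operator `a ↦ (f - l) (f - l - s) a`. -/
noncomputable def opL (f : A) (l s : ℂ) : A →L[ℂ] A :=
  (ContinuousLinearMap.mul ℂ A f - l • ContinuousLinearMap.id ℂ A).comp
    (ContinuousLinearMap.mul ℂ A f - (l + s) • ContinuousLinearMap.id ℂ A)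

lemma opL_apply (f : A) (l s : ℂ) (a : A) :
    opL f l s a = f * (f * a - (l + s) • a) - l • (f * a - (l + s) • a) := by
  simp only [opL, ContinuousLinearMap.comp_apply, sub_apply,
    ContinuousLinearMap.mul_apply', smul_apply, ContinuousLinearMap.id_apply]

lemma opL_mul (f : A) (l s : ℂ) (a c : A) : opL f l s (a * c) = a * opL f l s c := by
  simp only [opL_apply, mul_sub, mul_smul_comm, smul_sub]
  have h1 : f * (f * (a * c)) = a * (f * (f * c)) := by
    rw [mul_left_comm f a c, mul_left_comm f a (f * c)]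
  have h2 : f * (a * c) = a * (f * c) := mul_left_comm _ _ _
  rw [h1, h2]

omit [IsScalarTower ℂ A A] [SMulCommClass ℂ A A] in
lemma inr_smul' (c : ℂ) (a : A) : ((c • a : A) : Unitization ℂ A) = Unitization.inl c * (a : Unitization ℂ A) :=
  (Unitization.inl_mul_inr c a).symm

lemma opL_inr (f : A) (l s : ℂ) (a : A) : ((opL f l s a : A) : Unitization ℂ A) =
    ((f : Unitization ℂ A) - Unitization.inl l) * ((f : Unitization ℂ A) - Unitization.inl (l + s)) *
      (a : Unitization ℂ A) := by
  rw [opL_apply]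
  simp only [Unitization.inr_sub, Unitization.inr_mul, inr_smul']
  ring

/-- the closed ideal generated by the range of `opL`. -/
noncomputable def idL (f : A) (l s : ℂ) : Submodule ℂ A :=
  (LinearMap.range (opL f l s).toLinearMap).topologicalClosure

lemma idL_closed (f : A) (l s : ℂ) : IsClosed (idL f l s : Set A) :=
  Submodule.isClosed_topologicalClosure _

lemma mem_idL_iff (f : A) (l s : ℂ) (y : A) : y ∈ idL f l s ↔ y ∈ closure (Set.range (opL f l s)) := by
  rfl

lemma opL_mem (f : A) (l s : ℂ) (a : A) : opL f l s a ∈ idL f l s :=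
  subset_closure ⟨a, rfl⟩

lemma idL_mul (f : A) (l s : ℂ) : ∀ a : A, ∀ y ∈ idL f l s, a * y ∈ idL f l s := by
  intro a y hy
  rw [mem_idL_iff] at hy ⊢
  refine map_mem_closure (continuous_const_mul a) hy ?_
  rintro _ ⟨c, rfl⟩
  exact ⟨a * c, opL_mul f l s a c⟩

/-- the multiplier `(l + s - f) / s` in the unitization. -/
noncomputable def eU (f : A) (l s : ℂ) : Unitization ℂ A :=
  Unitization.inl s⁻¹ * (Unitization.inl (l + s) - (f : Unitization ℂ A))

omit [IsScalarTower ℂ A A] [SMulCommClass ℂ A A] in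
lemma inl_inv_mul (s : ℂ) (hs : s ≠ 0) : (Unitization.inl s⁻¹ * Unitization.inl s : Unitization ℂ A) = 1 := by
  rw [← Unitization.inl_mul, inv_mul_cancel₀ hs]
  rfl

lemma eU_sq (f : A) (l s : ℂ) (hs : s ≠ 0) (z : Unitization ℂ A) (hz : z.fst = 0) :
    (eU f l s * eU f l s - eU f l s) * z ∈ unitIdeal (idL f l s) (idL_mul f l s) := by
  obtain ⟨a, rfl⟩ : ∃ a : A, z = (a : Unitization ℂ A) := ⟨z.snd, by
    ext
    · simpa using hz
    · simp⟩
  have h : (eU f l s * eU f l s - eU f l s) * (a : Unitization ℂ A) =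
      (((s⁻¹ * s⁻¹) • opL f l s a : A) : Unitization ℂ A) := by
    rw [inr_smul', opL_inr, Unitization.inl_mul]
    have h1 : (Unitization.inl s⁻¹ * Unitization.inl s : Unitization ℂ A) = 1 := inl_inv_mul s hs
    unfold eU
    rw [Unitization.inl_add]
    generalize (Unitization.inl s⁻¹ : Unitization ℂ A) = t at *
    generalize (Unitization.inl s : Unitization ℂ A) = σ at *
    generalize (Unitization.inl l : Unitization ℂ A) = m at *
    generalize (f : Unitization ℂ A) = F at *
    generalize (a : Unitization ℂ A) = B at *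
    linear_combination (t * (m + σ - F) * B) * h1
  rw [h]
  refine ⟨by simp, ?_⟩
  rw [Unitization.snd_inr]
  exact Submodule.smul_mem _ _ (opL_mem f l s a)

lemma quot_spec (f x : A) (l s : ℂ) (hs : s ≠ 0) :
    spectralRadius ℂ (Ideal.Quotient.mk (unitIdeal (idL f l s) (idL_mul f l s))
      (eU f l s * (x : Unitization ℂ A))) ≤ spectralRadius ℂ (x : Unitization ℂ A) := by
  unfold spectralRadius
  apply iSup₂_le
  intro k hk
  by_cases hk0 : k = 0
  · simp [hk0]
  suffices hmem : k ∈ spectrum ℂ (x : Unitization ℂ A) from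
    le_iSup₂ (f := fun (k : ℂ) (_ : k ∈ spectrum ℂ (x : Unitization ℂ A)) => (‖k‖₊ : ℝ≥0∞)) k hmem
  by_contra hnot
  apply hk
  rw [spectrum.notMem_iff] at hnot
  rw [spectrum.mem_resolventSet_iff]
  obtain ⟨u, hu⟩ := hnot.exists_right_inv
  set e := eU f l s with he
  set J := unitIdeal (idL f l s) (idL_mul f l s) with hJ
  set X : Unitization ℂ A := (x : Unitization ℂ A) with hX
  set k' : Unitization ℂ A := algebraMap ℂ (Unitization ℂ A) k with hk'
  have hkk : algebraMap ℂ (Unitization ℂ A) k⁻¹ * k' = 1 := by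
    rw [hk', ← map_mul, inv_mul_cancel₀ hk0, map_one]
  have hmemJ : (k' - e * X) * (1 + e * X * u) - k' ∈ J := by
    have h1 : (k' - e * X) * (1 + e * X * u) - k' = -((e * e - e) * (X * (X * u))) := by
      linear_combination (e * X) * hu
    rw [h1]
    apply J.neg_mem
    apply eU_sq f l s hs
    rw [Unitization.fst_mul, hX, Unitization.fst_inr, zero_mul]
  have hq : Ideal.Quotient.mk J (k' - e * X) * (Ideal.Quotient.mk J ((1 + e * X * u) * algebraMap ℂ (Unitization ℂ A) k⁻¹)) = 1 := by
    rw [← map_mul, ← map_one (Ideal.Quotient.mk J), Ideal.Quotient.eq]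
    have h2 : (k' - e * X) * ((1 + e * X * u) * algebraMap ℂ (Unitization ℂ A) k⁻¹) - 1 =
        algebraMap ℂ (Unitization ℂ A) k⁻¹ * ((k' - e * X) * (1 + e * X * u) - k') := by
      linear_combination hkk
    rw [h2]
    exact J.mul_mem_left _ hmemJ
  have hq' : Ideal.Quotient.mk J ((1 + e * X * u) * algebraMap ℂ (Unitization ℂ A) k⁻¹) *
      Ideal.Quotient.mk J (k' - e * X) = 1 := by
    rw [← map_mul, mul_comm ((1 + e * X * u) * algebraMap ℂ (Unitization ℂ A) k⁻¹), map_mul]
    exact hq
  have hunit : IsUnit (Ideal.Quotient.mk J (k' - e * X)) :=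
    isUnit_iff_exists.mpr ⟨_, hq, hq'⟩
  rw [map_sub] at hunit
  exact hunit

end Pool.Agent.Lib.Pda2ee6
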