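import Mathlib
import Pool.Agent.Lib.Pda2ee6.Key

set_option autoImplicit false

open scoped ENNReal Topology
open WeakDual Filter

namespace Pool.Agent.Lib.Pda2ee6

variable {A : Type*} [NonUnitalNormedCommRing A] [NormedSpace ℂ A] [IsScalarTower ℂ A A]
  [SMulCommClass ℂ A A]

lemma char_le_spec (φ : characterSpace ℂ A) (a : A) :
    (‖φ a‖₊ : ℝ≥0∞) ≤ spectralRadius ℂ (a : Unitization ℂ A) := by
  have h := AlgHom.apply_mem_spectrum (Unitization.lift (CharacterSpace.toNonUnitalAlgHom φ)) (a : Unitization ℂ A)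
  have h2 : Unitization.lift (CharacterSpace.toNonUnitalAlgHom φ) (a : Unitization ℂ A) = φ a := by
    have h3 := Unitization.lift_symm_apply_apply (Unitization.lift (CharacterSpace.toNonUnitalAlgHom φ)) a
    rw [Equiv.symm_apply_apply] at h3
    exact h3.symm
  rw [h2] at h
  exact le_iSup₂ (f := fun (k : ℂ) (_ : k ∈ spectrum ℂ (a : Unitization ℂ A)) => (‖k‖₊ : ℝ≥0∞)) (φ a) h

lemma spec_le_norm [CompleteSpace A] (x : A) : spectralRadius ℂ (x : Unitization ℂ A) ≤ ENNReal.ofReal ‖x‖ := by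
  unfold spectralRadius
  apply iSup₂_le
  intro k hk
  have h1 : spectrum ℂ (x : Unitization ℂ A) = spectrum ℂ (WithLp.toLp 1 (x : Unitization ℂ A)) := by
    have := AlgEquiv.spectrum_eq (WithLp.unitizationAlgEquiv (𝕜 := ℂ) (A := A) ℂ) (WithLp.toLp 1 (x : Unitization ℂ A))
    rw [← this]
    rfl
  rw [h1] at hk
  have h2 := spectrum.norm_le_norm_mul_of_mem hk
  have h3 : ‖(1 : WithLp 1 (Unitization ℂ A))‖ = 1 := by
    rw [WithLp.unitization_norm_def]
    have : WithLp.ofLp (1 : WithLp 1 (Unitization ℂ A)) = (1 : Unitization ℂ A) := rfl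
    rw [this]
    simp
  rw [h3, mul_one, WithLp.unitization_norm_inr] at h2
  have h4 : (‖k‖₊ : ℝ≥0∞) = ENNReal.ofReal ‖k‖ := by
    rw [ofReal_norm]; rfl
  rw [h4]
  exact ENNReal.ofReal_le_ofReal h2

lemma char_norm_le [CompleteSpace A] (φ : characterSpace ℂ A) (a : A) : ‖φ a‖ ≤ ‖a‖ := by
  have h := (char_le_spec φ a).trans (spec_le_norm a)
  have h4 : (‖φ a‖₊ : ℝ≥0∞) = ENNReal.ofReal ‖φ a‖ := by
    rw [ofReal_norm]; rfl
  rw [h4] at h
  exact (ENNReal.ofReal_le_ofReal_iff (norm_nonneg a)).mp h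

/-- The consequence of the SR property for the ideals `(f - l) (f - l - s) A`. -/
lemma sr_key [CompleteSpace A] (h : IsSRAlgebra A) (f x : A) (l s : ℂ) (hs : s ≠ 0) (M : ℝ) (hM : ‖x‖ < M) :
    ∃ b : A, ∃ M' : ℝ, M' < M * ‖s‖ ∧ ∀ φ : characterSpace ℂ A,
      ‖(φ f - l - s) * (φ x - (φ f - l) * φ b)‖ ≤ M' := by
  have hMpos : 0 < M := lt_of_le_of_lt (norm_nonneg x) hM
  have hspos : 0 < ‖s‖ := norm_pos_iff.mpr hs
  set x' : A := s⁻¹ • ((l + s) • x - f * x) with hx'
  have hx'U : (x' : Unitization ℂ A) = eU f l s * (x : Unitization ℂ A) := by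
    rw [hx', inr_smul', Unitization.inr_sub, inr_smul', Unitization.inr_mul]
    unfold eU
    ring
  obtain ⟨y, hy, hyM⟩ : ∃ y ∈ idL f l s, spectralRadius ℂ ((x' + y : A) : Unitization ℂ A) < ENNReal.ofReal M := by
    by_cases hI : idL f l s = ⊤
    · refine ⟨-x', by rw [hI]; exact Submodule.mem_top, ?_⟩
      rw [add_neg_cancel]
      refine lt_of_le_of_lt (spec_le_norm 0) ?_
      simpa using hMpos
    · have h1 := h (idL f l s) (idL_mul f l s) (idL_closed f l s) hI x'
      have h2 : spectralRadius ℂ (Ideal.Quotient.mk (unitIdeal (idL f l s) (idL_mul f l s)) (x' : Unitization ℂ A))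
          < ENNReal.ofReal M := by
        rw [hx'U]
        refine lt_of_le_of_lt ((quot_spec f x l s hs).trans (spec_le_norm x)) ?_
        exact (ENNReal.ofReal_lt_ofReal_iff hMpos).mpr hM
      rw [h1] at h2
      simp only [iInf_lt_iff] at h2
      obtain ⟨y, hy, hlt⟩ := h2
      exact ⟨y, hy, hlt⟩
  -- the real number bounding
  set ρ : ℝ := (spectralRadius ℂ ((x' + y : A) : Unitization ℂ A)).toReal with hρ
  have hfin : spectralRadius ℂ ((x' + y : A) : Unitization ℂ A) ≠ ⊤ := ne_top_of_lt hyM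
  have hρM : ρ < M := by
    have := (ENNReal.toReal_lt_toReal hfin ENNReal.ofReal_ne_top).mpr hyM
    rwa [ENNReal.toReal_ofReal hMpos.le] at this
  have hφρ : ∀ φ : characterSpace ℂ A, ‖φ (x' + y)‖ ≤ ρ := by
    intro φ
    have h1 := char_le_spec φ (x' + y)
    have := (ENNReal.toReal_le_toReal ENNReal.coe_ne_top hfin).mpr h1
    rw [ENNReal.coe_toReal, coe_nnnorm] at this
    exact this
  rw [mem_idL_iff, Metric.mem_closure_range_iff] at hy
  obtain ⟨a, ha⟩ := hy ((M - ρ) / 2) (by linarith)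
  refine ⟨s • a, (ρ + (M - ρ) / 2) * ‖s‖, ?_, ?_⟩
  · apply mul_lt_mul_of_pos_right _ hspos
    linarith
  · intro φ
    have e1 : φ x' = s⁻¹ * ((l + s) * φ x - φ f * φ x) := by
      rw [hx', map_smul, map_sub, map_smul, map_mul]
      simp
    have e2 : φ (opL f l s a) = (φ f - l) * ((φ f - l - s) * φ a) := by
      rw [opL_apply]
      simp only [map_sub, map_mul, map_smul, smul_eq_mul]
      ring
    have e3 : (φ f - l - s) * (φ x - (φ f - l) * φ (s • a)) = -(s * φ (x' + opL f l s a)) := by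
      rw [map_add, e1, e2, map_smul, smul_eq_mul]
      field_simp
      ring
    rw [e3, norm_neg, norm_mul, mul_comm]
    apply mul_le_mul_of_nonneg_right _ hspos.le
    have e4 : x' + opL f l s a = (x' + y) + (opL f l s a - y) := by abel
    rw [e4, map_add]
    refine (norm_add_le _ _).trans ?_
    apply add_le_add (hφρ φ)
    refine (char_norm_le φ _).trans ?_
    rw [dist_eq_norm] at ha
    rw [← norm_neg, neg_sub]
    exact ha.le

/-- Continuous selection of the elements `b`. -/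
lemma sr_select [CompleteSpace A] (h : IsSRAlgebra A) (f x : A) (s : ℂ) (hs : s ≠ 0) (M : ℝ) (hM : ‖x‖ < M) :
    ∃ b : C(ℂ, A), ∀ l : ℂ, ∀ φ : characterSpace ℂ A,
      ‖(φ f - l - s) * (φ x - (φ f - l) * φ (b l))‖ ≤ M * ‖s‖ := by
  let P : ℂ → A → A := fun l b => f * (x - f * b + l • b) - (l + s) • (x - f * b + l • b)
  have hP : ∀ (φ : characterSpace ℂ A) l b, φ (P l b) = (φ f - l - s) * (φ x - (φ f - l) * φ b) := by
    intro φ l b
    simp only [P, map_sub, map_add, map_mul, map_smul, smul_eq_mul]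
    ring
  let t : ℂ → Set A := fun l => {b : A | ∃ M' : ℝ, M' < M * ‖s‖ ∧ ∀ φ : characterSpace ℂ A, ‖φ (P l b)‖ ≤ M'}
  have ht : ∀ l, Convex ℝ (t l) := by
    intro l b₁ hb₁ b₂ hb₂ α β hα hβ hαβ
    obtain ⟨M₁, hM₁, h₁⟩ := hb₁
    obtain ⟨M₂, hM₂, h₂⟩ := hb₂
    refine ⟨α * M₁ + β * M₂, ?_, ?_⟩
    · rcases eq_or_lt_of_le hα with hα0 | hα0
      · rw [← hα0] at hαβ ⊢
        rw [zero_add] at hαβ
        rw [hαβ]; linarith
      · calc α * M₁ + β * M₂ < α * (M * ‖s‖) + β * (M * ‖s‖) := by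
              have := mul_lt_mul_of_pos_left hM₁ hα0
              have := mul_le_mul_of_nonneg_left hM₂.le hβ
              linarith
          _ = M * ‖s‖ := by rw [← add_mul, hαβ, one_mul]
    · intro φ
      have hαβ' : (α : ℂ) + (β : ℂ) = 1 := by exact_mod_cast hαβ
      have e : φ (P l (α • b₁ + β • b₂)) = (α : ℂ) * φ (P l b₁) + (β : ℂ) * φ (P l b₂) := by
        rw [hP, hP, hP]
        have e1 : φ (α • b₁ + β • b₂) = (α : ℂ) * φ b₁ + (β : ℂ) * φ b₂ := by
          rw [map_add]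
          have e2 : ∀ (c : ℝ) (a : A), φ (c • a) = (c : ℂ) * φ a := by
            intro c a
            have : c • a = (c : ℂ) • a := (Complex.coe_smul c a).symm
            rw [this, map_smul, smul_eq_mul]
          rw [e2, e2]
        rw [e1]
        linear_combination (-((φ f - l - s) * φ x)) * hαβ'
      rw [e]
      refine (norm_add_le _ _).trans ?_
      rw [norm_mul, norm_mul, Complex.norm_real, Complex.norm_real, Real.norm_of_nonneg hα, Real.norm_of_nonneg hβ]
      gcongr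
      · exact h₁ φ
      · exact h₂ φ
  have H : ∀ l : ℂ, ∃ c : A, ∀ᶠ l' in 𝓝 l, c ∈ t l' := by
    intro l
    obtain ⟨b, M', hM', hb⟩ := sr_key h f x l s hs M hM
    refine ⟨b, ?_⟩
    have hcont : Continuous (fun l' => P l' b) := by
      simp only [P]
      fun_prop
    have hpos : 0 < (M * ‖s‖ - M') / 2 := by linarith
    have := Metric.tendsto_nhds.mp (hcont.tendsto l) _ hpos
    filter_upwards [this] with l' hl'
    refine ⟨M' + (M * ‖s‖ - M') / 2, by linarith, fun φ => ?_⟩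
    have e : P l' b = P l b + (P l' b - P l b) := by abel
    rw [e, map_add]
    refine (norm_add_le _ _).trans (add_le_add ?_ ?_)
    · rw [hP]; exact hb φ
    · refine (char_norm_le φ _).trans ?_
      rw [dist_eq_norm] at hl'
      exact hl'.le
  obtain ⟨g, hg⟩ := exists_continuous_forall_mem_convex_of_local_const ht H
  refine ⟨g, fun l φ => ?_⟩
  obtain ⟨M', hM', h1⟩ := hg l
  rw [← hP]
  exact (h1 φ).trans hM'.le

end Pool.Agent.Lib.Pda2ee6
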