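import Mathlib
import Pool.Agent.Lib.Pda2ee6.Key2
import Pool.Agent.Lib.Pda2ee6.Cauchy

set_option autoImplicit false

open scoped ENNReal Topology ComplexConjugate Real
open WeakDual Filter MeasureTheory Metric

namespace Pool.Agent.Lib.Pda2ee6

variable {A : Type*} [NonUnitalNormedCommRing A] [NormedSpace ℂ A] [IsScalarTower ℂ A A]
  [SMulCommClass ℂ A A]

lemma K_nonneg (R : ℝ) : 0 ≤ K R := by
  unfold K
  apply integral_nonneg
  intro u
  simp only [Pi.zero_apply]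
  positivity

/-- Conjugates of Gelfand transforms times Gelfand transforms are uniform limits of Gelfand
transforms. -/
lemma approx [CompleteSpace A] (h : IsSRAlgebra A) (f x : A) (ε : ℝ) (hε : 0 < ε) :
    ∃ a : A, ∀ φ : characterSpace ℂ A, ‖conj (φ f) * φ x - φ a‖ ≤ ε := by
  set R : ℝ := ‖f‖ + 1 with hR
  set M : ℝ := ‖x‖ + 1 with hM
  have hRpos : 0 < R := by positivity
  have hMpos : 0 < M := by positivity
  have hKn := K_nonneg (2 * R)
  set D : ℝ := 2 * M * K (2 * R) + 1 with hD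
  have hDpos : 0 < D := by positivity
  -- the shift
  set s : ℝ := min 1 ((ε / D) ^ 2) with hs
  have hs0 : 0 < s := lt_min one_pos (by positivity)
  have hs1 : s ≤ 1 := min_le_left _ _
  have hsq : √s ≤ ε / D := by
    rw [Real.sqrt_le_left (by positivity)]
    exact min_le_right _ _
  have hsC : (s : ℂ) ≠ 0 := by exact_mod_cast hs0.ne'
  obtain ⟨b, hb⟩ := sr_select h f x (s : ℂ) hsC M (by simp [hM])
  have hbint : IntegrableOn (fun w => b w) (ball (0:ℂ) R) :=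
    (b.continuous.continuousOn.integrableOn_compact (isCompact_closedBall (0:ℂ) R)).mono_set ball_subset_closedBall
  refine ⟨(π⁻¹ : ℂ) • ∫ w in ball (0:ℂ) R, b w, fun φ => ?_⟩
  set z : ℂ := φ f with hz
  have hzn : ‖z‖ ≤ ‖f‖ := char_norm_le φ f
  have hzR : ‖z‖ < R := by rw [hR]; linarith
  have hπ : (π : ℂ) ≠ 0 := by exact_mod_cast Real.pi_ne_zero
  have h1 : φ ((π⁻¹ : ℂ) • ∫ w in ball (0:ℂ) R, b w) = (π⁻¹ : ℂ) * ∫ w in ball (0:ℂ) R, φ (b w) := by
    rw [map_smul, smul_eq_mul]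
    congr 1
    exact ((CharacterSpace.toCLM φ).integral_comp_comm hbint).symm
  have h2 : conj z * φ x = (π⁻¹ : ℂ) * ∫ w in ball (0:ℂ) R, (z - w)⁻¹ * φ x := by
    rw [integral_mul_const, area_cauchy z R hzR]
    field_simp
  have hφb : IntegrableOn (fun w => φ (b w)) (ball (0:ℂ) R) := (CharacterSpace.toCLM φ).integrable_comp hbint
  have hzi : IntegrableOn (fun w => (z - w)⁻¹ * φ x) (ball (0:ℂ) R) := (locInt_inv z R).mul_const _
  rw [h1, h2, ← mul_sub, ← integral_sub hzi hφb, norm_mul]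
  have hbound : ‖∫ w in ball (0:ℂ) R, ((z - w)⁻¹ * φ x - φ (b w))‖ ≤
      ∫ w in ball (0:ℂ) R, M * √s * (‖z - w‖ ^ (-(3/2) : ℝ) + ‖(z - s) - w‖ ^ (-(3/2) : ℝ)) := by
    apply norm_integral_le_of_norm_le
    · exact ((int_rpow z R).add (int_rpow (z - s) R)).const_mul _
    · have hne : ∀ᵐ w : ℂ, w ≠ z ∧ w ≠ z - s := by
        have h1 : ∀ᵐ w : ℂ, w ≠ z := by rw [ae_iff]; simp
        have h2 : ∀ᵐ w : ℂ, w ≠ z - s := by rw [ae_iff]; simp
        filter_upwards [h1, h2] with w hw1 hw2 using ⟨hw1, hw2⟩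
      filter_upwards [ae_restrict_of_ae hne] with w hw
      have hu : 0 < ‖z - w‖ := norm_pos_iff.mpr (sub_ne_zero.mpr (Ne.symm hw.1))
      have hv : 0 < ‖(z - s) - w‖ := norm_pos_iff.mpr (sub_ne_zero.mpr (Ne.symm hw.2))
      have hzw : z - w ≠ 0 := sub_ne_zero.mpr (Ne.symm hw.1)
      have e1 : (z - w)⁻¹ * φ x - φ (b w) = (z - w)⁻¹ * (φ x - (z - w) * φ (b w)) := by
        field_simp
      rw [e1, norm_mul, norm_inv]
      have h3 := hb w φ
      rw [norm_mul, Complex.norm_real, Real.norm_of_nonneg hs0.le] at h3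
      have e2 : φ f - w - (s : ℂ) = (z - s) - w := by rw [← hz]; ring
      rw [e2, ← hz] at h3
      have h4 : ‖φ x - (z - w) * φ (b w)‖ ≤ M * s / ‖(z - s) - w‖ := by
        rw [le_div_iff₀ hv, mul_comm]
        exact h3
      have h5 := kernel_ineq s ‖z - w‖ ‖(z - s) - w‖ hs0 hu hv (by
        have : (s : ℂ) = (z - w) - ((z - s) - w) := by ring
        calc s = ‖(s : ℂ)‖ := by rw [Complex.norm_real, Real.norm_of_nonneg hs0.le]
          _ = ‖(z - w) - ((z - s) - w)‖ := by rw [← this]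
          _ ≤ ‖z - w‖ + ‖(z - s) - w‖ := norm_sub_le _ _)
      calc ‖z - w‖⁻¹ * ‖φ x - (z - w) * φ (b w)‖ ≤ ‖z - w‖⁻¹ * (M * s / ‖(z - s) - w‖) := by gcongr
        _ = M * (s / (‖z - w‖ * ‖(z - s) - w‖)) := by field_simp
        _ ≤ M * (√s * (‖z - w‖ ^ (-(3/2) : ℝ) + ‖(z - s) - w‖ ^ (-(3/2) : ℝ))) := by gcongr
        _ = _ := by ring
  have hint : ∫ w in ball (0:ℂ) R, M * √s * (‖z - w‖ ^ (-(3/2) : ℝ) + ‖(z - s) - w‖ ^ (-(3/2) : ℝ)) ≤
      M * √s * (K (2 * R) + K (2 * R)) := by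
    rw [integral_const_mul, integral_add (int_rpow z R) (int_rpow (z - s) R)]
    have hzs : ‖z - (s:ℂ)‖ ≤ R := by
      calc ‖z - (s:ℂ)‖ ≤ ‖z‖ + ‖(s:ℂ)‖ := norm_sub_le _ _
        _ ≤ ‖f‖ + 1 := by
          rw [Complex.norm_real, Real.norm_of_nonneg hs0.le]
          gcongr
    gcongr
    · exact int_rpow_le z R (2 * R) (by linarith)
    · exact int_rpow_le (z - s) R (2 * R) (by linarith)
  have hπn : ‖(π⁻¹ : ℂ)‖ ≤ 1 := by
    rw [norm_inv, Complex.norm_real, Real.norm_of_nonneg Real.pi_pos.le]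
    apply inv_le_one_of_one_le₀
    linarith [Real.pi_gt_three]
  calc ‖(π⁻¹ : ℂ)‖ * ‖∫ w in ball (0:ℂ) R, ((z - w)⁻¹ * φ x - φ (b w))‖
      ≤ 1 * (M * √s * (K (2 * R) + K (2 * R))) := by
        gcongr
        exact hbound.trans hint
    _ = (2 * M * K (2 * R)) * √s := by ring
    _ ≤ D * √s := by
        gcongr
        linarith
    _ ≤ D * (ε / D) := by gcongr
    _ = ε := by field_simp

end Pool.Agent.Lib.Pda2ee6
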