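import Mathlib
import Pool.Agent.Lib.Pda2ee6.Approx

set_option autoImplicit false

open scoped ENNReal Topology ComplexConjugate
open WeakDual Filter Metric

namespace Pool.Agent.Lib.Pda2ee6

variable {A : Type*} [NonUnitalNormedCommRing A] [NormedSpace ℂ A] [IsScalarTower ℂ A A]
  [SMulCommClass ℂ A A]

variable (A) in
/-- characters together with zero -/
def KS : Set (WeakDual ℂ A) := characterSpace ℂ A ∪ {0}

omit [IsScalarTower ℂ A A] [SMulCommClass ℂ A A] in
lemma KS_mul (ψ : KS A) (a b : A) : (ψ : WeakDual ℂ A) (a * b) = (ψ : WeakDual ℂ A) a * (ψ : WeakDual ℂ A) b := by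
  have h : (ψ : WeakDual ℂ A) ∈ {φ : WeakDual ℂ A | ∀ x y : A, φ (x * y) = φ x * φ y} := by
    rw [← CharacterSpace.union_zero]
    exact ψ.2
  exact h a b

instance [CompleteSpace A] : CompactSpace (KS A) := by
  rw [← isCompact_iff_compactSpace]
  have h : KS A ⊆ toStrongDual ⁻¹' Metric.closedBall 0 1 := by
    intro φ hφ
    rw [Set.mem_preimage, mem_closedBall_zero_iff]
    rcases hφ with hφ | hφ
    · apply ContinuousLinearMap.opNorm_le_bound _ zero_le_one
      intro a
      rw [one_mul]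
      exact char_norm_le ⟨φ, hφ⟩ a
    · rw [Set.mem_singleton_iff.mp hφ]
      simp
  exact (WeakDual.isCompact_closedBall 0 1).of_isClosed_subset (CharacterSpace.union_zero_isClosed ℂ A) h

/-- evaluation at `a` -/
noncomputable def ev (a : A) : C(KS A, ℂ) :=
  ⟨fun ψ => (ψ : WeakDual ℂ A) a, (WeakDual.eval_continuous a).comp continuous_subtype_val⟩

omit [IsScalarTower ℂ A A] [SMulCommClass ℂ A A] in
@[simp] lemma ev_apply (a : A) (ψ : KS A) : ev a ψ = (ψ : WeakDual ℂ A) a := rfl

variable (A) in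
/-- the algebra of functions `c + ev a`. -/
noncomputable def B0 : Subalgebra ℂ C(KS A, ℂ) where
  carrier := {G | ∃ (c : ℂ) (a : A), ∀ ψ : KS A, G ψ = c + (ψ : WeakDual ℂ A) a}
  mul_mem' := by
    rintro G G' ⟨c, a, h⟩ ⟨c', a', h'⟩
    refine ⟨c * c', c • a' + c' • a + a * a', fun ψ => ?_⟩
    rw [ContinuousMap.mul_apply, h, h', map_add, map_add, map_smul, map_smul, KS_mul]
    simp only [smul_eq_mul]
    ring
  add_mem' := by
    rintro G G' ⟨c, a, h⟩ ⟨c', a', h'⟩
    refine ⟨c + c', a + a', fun ψ => ?_⟩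
    rw [ContinuousMap.add_apply, h, h', map_add]
    ring
  algebraMap_mem' := by
    intro r
    refine ⟨r, 0, fun ψ => ?_⟩
    rw [map_zero, add_zero]
    rfl

variable (A) in
/-- the star subalgebra of functions which, with their conjugates, are in the closure of `B0`. -/
noncomputable def SS [CompleteSpace A] : StarSubalgebra ℂ C(KS A, ℂ) where
  carrier := {G | G ∈ (B0 A).topologicalClosure ∧ star G ∈ (B0 A).topologicalClosure}
  mul_mem' := by
    rintro G G' ⟨h1, h2⟩ ⟨h3, h4⟩
    refine ⟨mul_mem h1 h3, ?_⟩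
    rw [star_mul]
    exact mul_mem h4 h2
  add_mem' := by
    rintro G G' ⟨h1, h2⟩ ⟨h3, h4⟩
    refine ⟨add_mem h1 h3, ?_⟩
    rw [star_add]
    exact add_mem h2 h4
  algebraMap_mem' := by
    intro r
    refine ⟨Subalgebra.algebraMap_mem _ r, ?_⟩
    rw [← algebraMap_star_comm]
    exact Subalgebra.algebraMap_mem _ _
  star_mem' := by
    rintro G ⟨h1, h2⟩
    exact ⟨h2, by rw [star_star]; exact h1⟩

lemma conj_mul_mem [CompleteSpace A] (h : IsSRAlgebra A) (f x : A) :
    (star (ev f) * ev x : C(KS A, ℂ)) ∈ (B0 A).topologicalClosure := by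
  change _ ∈ closure (B0 A : Set C(KS A, ℂ))
  rw [Metric.mem_closure_iff]
  intro ε hε
  obtain ⟨a, ha⟩ := approx h f x (ε / 2) (by positivity)
  refine ⟨ev a, ⟨0, a, fun ψ => by simp⟩, ?_⟩
  refine lt_of_le_of_lt ?_ (half_lt_self hε)
  rw [ContinuousMap.dist_le (by positivity)]
  intro ψ
  rw [dist_eq_norm]
  rcases ψ.2 with hψ | hψ
  · exact ha ⟨ψ.1, hψ⟩
  · have : (ψ : WeakDual ℂ A) = 0 := hψ
    have e : (star (ev f) * ev x : C(KS A, ℂ)) ψ - ev a ψ = 0 := by
      have hz : ∀ b : A, (ψ : WeakDual ℂ A) b = 0 := fun b => by rw [this]; rfl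
      rw [ContinuousMap.mul_apply, ContinuousMap.star_apply, ev_apply, ev_apply, ev_apply, hz, hz, hz]
      simp
    rw [e, norm_zero]
    positivity

lemma B0_dense [CompleteSpace A] (h : IsSRAlgebra A) : (B0 A).topologicalClosure = ⊤ := by
  have hmem : ∀ f x : A, (star (ev f) * ev x : C(KS A, ℂ)) ∈ SS A := by
    intro f x
    refine ⟨conj_mul_mem h f x, ?_⟩
    rw [star_mul, star_star]
    exact conj_mul_mem h x f
  have hsep : (SS A).SeparatesPoints := by
    intro ψ₁ ψ₂ hne
    by_contra hcon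
    push Not at hcon
    have key : ∀ f x : A, conj ((ψ₁ : WeakDual ℂ A) f) * (ψ₁ : WeakDual ℂ A) x = conj ((ψ₂ : WeakDual ℂ A) f) * (ψ₂ : WeakDual ℂ A) x := by
      intro f x
      exact hcon _ ⟨_, hmem f x, rfl⟩
    apply hne
    apply Subtype.ext
    by_cases h1 : ∀ f, (ψ₁ : WeakDual ℂ A) f = 0
    · apply DFunLike.ext
      intro x
      have := key x x
      rw [h1 x, mul_zero] at this
      have h2 : (ψ₂ : WeakDual ℂ A) x = 0 := by
        have h3 : conj ((ψ₂ : WeakDual ℂ A) x) * (ψ₂ : WeakDual ℂ A) x = 0 := this.symm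
        rcases mul_eq_zero.mp h3 with h4 | h4
        · simpa using h4
        · exact h4
      rw [h1 x, h2]
    · push Not at h1
      obtain ⟨f, hf⟩ := h1
      have hcf : conj ((ψ₁ : WeakDual ℂ A) f) ≠ 0 := by simpa using hf
      set c : ℂ := conj ((ψ₂ : WeakDual ℂ A) f) / conj ((ψ₁ : WeakDual ℂ A) f) with hc
      have h2 : ∀ x, (ψ₁ : WeakDual ℂ A) x = c * (ψ₂ : WeakDual ℂ A) x := by
        intro x
        have := key f x
        rw [hc]
        field_simp
        rw [mul_comm]
        exact this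
      have h3 : c ^ 2 * ((ψ₂ : WeakDual ℂ A) f) ^ 2 = c * ((ψ₂ : WeakDual ℂ A) f) ^ 2 := by
        have h4 := h2 (f * f)
        rw [KS_mul, KS_mul, h2 f] at h4
        linear_combination h4
      have h5 : c ≠ 0 := by
        intro h0
        rw [h2 f, h0, zero_mul] at hf
        exact hf rfl
      have h6 : (ψ₂ : WeakDual ℂ A) f ≠ 0 := by
        intro h0
        rw [h2 f, h0, mul_zero] at hf
        exact hf rfl
      have h7 : c = 1 := by
        have h8 : c * ((ψ₂ : WeakDual ℂ A) f) ^ 2 * (c - 1) = 0 := by linear_combination h3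
        rcases mul_eq_zero.mp h8 with h9 | h9
        · exact absurd h9 (mul_ne_zero h5 (pow_ne_zero 2 h6))
        · exact sub_eq_zero.mp h9
      apply DFunLike.ext
      intro x
      rw [h2 x, h7, one_mul]
  have hSW := ContinuousMap.starSubalgebra_topologicalClosure_eq_top_of_separatesPoints (SS A) hsep
  rw [eq_top_iff]
  intro G _
  have hG : G ∈ (SS A).topologicalClosure := by rw [hSW]; trivial
  have hG2 : G ∈ closure (SS A : Set C(KS A, ℂ)) := hG
  have hsub : (SS A : Set C(KS A, ℂ)) ⊆ ((B0 A).topologicalClosure : Set C(KS A, ℂ)) := fun g hg => hg.1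
  exact (closure_minimal hsub (B0 A).isClosed_topologicalClosure) hG2

end Pool.Agent.Lib.Pda2ee6
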