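import Mathlib
import Pool.Agent.Lib.Pda2ee6.SW

set_option autoImplicit false

open scoped ENNReal Topology ComplexConjugate ZeroAtInfty
open WeakDual Filter Metric

namespace Pool.Agent.Lib.Pda2ee6

variable {A : Type*} [NonUnitalNormedCommRing A] [NormedSpace ℂ A] [IsScalarTower ℂ A A]
  [SMulCommClass ℂ A A]

/-- the inclusion of the character space. -/
def incl (φ : characterSpace ℂ A) : KS A := ⟨φ.1, Or.inl φ.2⟩

omit [IsScalarTower ℂ A A] [SMulCommClass ℂ A A] in
lemma incl_openEmbedding : Topology.IsOpenEmbedding (incl (A := A)) := by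
  refine ⟨⟨?_, ?_⟩, ?_⟩
  · refine ⟨?_⟩
    have : (instTopologicalSpaceSubtype : TopologicalSpace (characterSpace ℂ A)) =
      TopologicalSpace.induced incl (TopologicalSpace.induced Subtype.val inferInstance) := by
      rw [induced_compose]
      rfl
    exact this
  · intro φ ψ hφψ
    apply Subtype.ext
    exact congrArg (fun k : KS A => (k : WeakDual ℂ A)) hφψ
  · have : Set.range (incl (A := A)) = {k : KS A | (k : WeakDual ℂ A) ≠ 0} := by
      ext k
      constructor
      · rintro ⟨φ, rfl⟩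
        exact φ.2.1
      · intro hk
        rcases k.2 with h | h
        · exact ⟨⟨k.1, h⟩, rfl⟩
        · exact absurd h hk
    rw [this]
    exact isOpen_ne.preimage continuous_subtype_val

open Classical in
/-- extension by zero. -/
noncomputable def ext0 (F : C₀(characterSpace ℂ A, ℂ)) (k : KS A) : ℂ :=
  if h : (k : WeakDual ℂ A) ∈ characterSpace ℂ A then F ⟨k.1, h⟩ else 0

omit [IsScalarTower ℂ A A] [SMulCommClass ℂ A A] in
lemma ext0_incl (F : C₀(characterSpace ℂ A, ℂ)) (φ : characterSpace ℂ A) : ext0 F (incl φ) = F φ := by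
  unfold ext0
  rw [dif_pos (show ((incl φ : KS A) : WeakDual ℂ A) ∈ characterSpace ℂ A from φ.2)]
  rfl

omit [IsScalarTower ℂ A A] [SMulCommClass ℂ A A] in
lemma ext0_zero (F : C₀(characterSpace ℂ A, ℂ)) (k : KS A) (hk : (k : WeakDual ℂ A) ∉ characterSpace ℂ A) :
    ext0 F k = 0 := by
  unfold ext0
  rw [dif_neg hk]

omit [IsScalarTower ℂ A A] [SMulCommClass ℂ A A] in
lemma ext0_continuous (F : C₀(characterSpace ℂ A, ℂ)) : Continuous (ext0 F) := by
  rw [continuous_iff_continuousAt]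
  intro k
  by_cases hk : (k : WeakDual ℂ A) ∈ characterSpace ℂ A
  · have e : k = incl ⟨k.1, hk⟩ := rfl
    rw [e, ← incl_openEmbedding.continuousAt_iff]
    have : ext0 F ∘ incl = F := by
      funext φ
      exact ext0_incl F φ
    rw [this]
    exact F.continuous.continuousAt
  · rw [ContinuousAt, ext0_zero F k hk, Metric.tendsto_nhds]
    intro ε hε
    have h1 := F.zero_at_infty'
    rw [Metric.tendsto_nhds] at h1
    have h2 := h1 ε hε
    rw [Filter.Eventually, Filter.mem_cocompact] at h2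
    obtain ⟨t, ht, htF⟩ := h2
    have h3 : IsClosed (incl '' t) := (ht.image incl_openEmbedding.continuous).isClosed
    have h4 : k ∈ (incl '' t)ᶜ := by
      rintro ⟨φ, _, rfl⟩
      exact hk φ.2
    filter_upwards [h3.isOpen_compl.mem_nhds h4] with k' hk'
    by_cases hk'2 : (k' : WeakDual ℂ A) ∈ characterSpace ℂ A
    · have e : k' = incl ⟨k'.1, hk'2⟩ := rfl
      rw [e, ext0_incl]
      apply htF
      intro hmem
      exact hk' ⟨_, hmem, rfl⟩
    · rw [ext0_zero F k' hk'2, dist_self]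
      exact hε

theorem final [CompleteSpace A] (h : IsSRAlgebra A) (F : C₀(characterSpace ℂ A, ℂ)) (ε : ℝ) (hε : 0 < ε) :
    ∃ a : A, ∀ φ : characterSpace ℂ A, ‖φ a - F φ‖ < ε := by
  have h1 : (⟨ext0 F, ext0_continuous F⟩ : C(KS A, ℂ)) ∈ (B0 A).topologicalClosure := by
    rw [B0_dense h]; trivial
  have h2 : (⟨ext0 F, ext0_continuous F⟩ : C(KS A, ℂ)) ∈ closure (B0 A : Set C(KS A, ℂ)) := h1
  rw [Metric.mem_closure_iff] at h2
  obtain ⟨G, ⟨c, a, hG⟩, hGF⟩ := h2 (ε / 2) (by positivity)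
  refine ⟨a, fun φ => ?_⟩
  have h3 : ∀ k : KS A, ‖ext0 F k - (c + (k : WeakDual ℂ A) a)‖ < ε / 2 := by
    intro k
    rw [← hG k, ← dist_eq_norm]
    have h4 := ContinuousMap.dist_apply_le_dist (f := (⟨ext0 F, ext0_continuous F⟩ : C(KS A, ℂ))) (g := G) k
    exact lt_of_le_of_lt h4 hGF
  let z : KS A := ⟨0, Or.inr rfl⟩
  have hc : ‖c‖ < ε / 2 := by
    have h4 := h3 z
    have h5 : ext0 F z = 0 := ext0_zero F z (fun hmem => hmem.1 rfl)
    have h6 : (z : WeakDual ℂ A) a = 0 := rfl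
    rw [h5, h6, add_zero, zero_sub, norm_neg] at h4
    exact h4
  have h7 := h3 (incl φ)
  rw [ext0_incl] at h7
  have h8 : ((incl φ : KS A) : WeakDual ℂ A) a = φ a := rfl
  rw [h8] at h7
  calc ‖φ a - F φ‖ = ‖-(F φ - (c + φ a)) - c‖ := by ring_nf
    _ ≤ ‖-(F φ - (c + φ a))‖ + ‖c‖ := norm_sub_le _ _
    _ < ε / 2 + ε / 2 := by rw [norm_neg]; exact add_lt_add h7 hc
    _ = ε := by ring

end Pool.Agent.Lib.Pda2ee6
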